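import Pool.Agent.H71.CQ.Basic

/-!
# Row SIM of board cqt_modules: countably many classes of similar structures
-/

set_option autoImplicit false

open Set

namespace Pool.Agent.H84.CQ

open Pool.Agent.H71.CQ

section meas

variable {L : Type} [MeasurableSpace L] [StandardBorelSpace L] (N : NF L) (r : ℕ → L)

omit [StandardBorelSpace L] in
lemma meas_ev (x y : ℕ) : Measurable fun e : ℕ → ℕ → L => e x y :=
  (measurable_pi_apply y).comp (measurable_pi_apply x)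

lemma meas_eq (x y : ℕ) (l : L) : MeasurableSet {e : ℕ → ℕ → L | e x y = l} :=
  meas_ev x y (measurableSet_singleton l)

omit [MeasurableSpace L] [StandardBorelSpace L] in
lemma srt_infinite_iff (e : ℕ → ℕ → L) (q : L) :
    (Srt e q).Infinite ↔ ∀ m : ℕ, ∃ y, m ≤ y ∧ e y y = q := by
  constructor
  · intro h m
    obtain ⟨y, hy, hm⟩ := h.exists_gt m
    exact ⟨y, hm.le, hy⟩
  · intro h hf
    obtain ⟨b, hb⟩ := hf.bddAbove
    obtain ⟨y, hy, hq⟩ := h (b + 1)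
    exact absurd (hb hq) (by omega)

lemma meas_inf (q : L) : MeasurableSet {e : ℕ → ℕ → L | (Srt e q).Infinite} := by
  have h : {e : ℕ → ℕ → L | (Srt e q).Infinite} =
      ⋂ m : ℕ, ⋃ y : ℕ, {e | m ≤ y ∧ e y y = q} := by
    ext e
    rw [mem_setOf_eq, srt_infinite_iff, mem_iInter]
    refine forall_congr' fun m => ?_
    rw [mem_iUnion]
    rfl
  rw [h]
  refine MeasurableSet.iInter fun m => MeasurableSet.iUnion fun y => ?_
  exact (MeasurableSet.const _).inter (meas_eq y y q)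

lemma meas_lv (n d x : ℕ) : MeasurableSet {e : ℕ → ℕ → L | x ∈ Lv N e r n d} := by
  induction d generalizing x with
  | zero =>
    have h : {e : ℕ → ℕ → L | x ∈ Lv N e r n 0} =
        ⋃ i : ℕ, {e | i ≤ n ∧ e x x = r i} ∩ {e | (Srt e (r i)).Infinite}ᶜ := by
      ext e
      rw [mem_iUnion]
      constructor
      · rintro ⟨⟨i, hi, hx⟩, hf⟩
        refine ⟨i, ⟨hi, hx⟩, ?_⟩
        rw [hx] at hf
        exact fun h => h hf
      · rintro ⟨i, ⟨hi, hx⟩, hf⟩
        refine ⟨⟨i, hi, hx⟩, ?_⟩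
        rw [hx]
        exact not_not.1 hf
    rw [h]
    refine MeasurableSet.iUnion fun i => MeasurableSet.inter ?_ (meas_inf _).compl
    exact (MeasurableSet.const _).inter (meas_eq x x (r i))
  | succ d ih =>
    have h : {e : ℕ → ℕ → L | x ∈ Lv N e r n (d + 1)} = {e | x ∈ Lv N e r n d} ∪
        ⋃ z : ℕ, ⋃ i : ℕ, {e | z ∈ Lv N e r n d} ∩ {e | (i ≤ n ∧ ¬ Op N (r i)) ∧ e z x = r i} := by
      ext e
      rw [mem_union, mem_iUnion]
      constructor
      · rintro (h | ⟨z, hz, i, hi, hx, ho⟩)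
        · exact Or.inl h
        · refine Or.inr ⟨z, mem_iUnion.2 ⟨i, hz, ⟨hi, ?_⟩, hx⟩⟩
          rwa [← hx]
      · rintro (h | ⟨z, hz⟩)
        · exact Or.inl h
        · obtain ⟨i, hz, ⟨hi, ho⟩, hx⟩ := mem_iUnion.1 hz
          refine Or.inr ⟨z, hz, i, hi, hx, ?_⟩
          rwa [hx]
    rw [h]
    refine (ih x).union (MeasurableSet.iUnion fun z => MeasurableSet.iUnion fun i => ?_)
    exact (ih z).inter ((MeasurableSet.const _).inter (meas_eq z x (r i)))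

lemma meas_lv_eq (n d : ℕ) (F : Set ℕ) :
    MeasurableSet {e : ℕ → ℕ → L | Lv N e r n d = F} := by
  have h : {e : ℕ → ℕ → L | Lv N e r n d = F} =
      ⋂ x : ℕ, {e | x ∈ Lv N e r n d ↔ x ∈ F} := by
    ext e
    rw [mem_iInter]
    exact Set.ext_iff
  rw [h]
  refine MeasurableSet.iInter fun x => ?_
  by_cases hx : x ∈ F
  · have h1 : {e : ℕ → ℕ → L | x ∈ Lv N e r n d ↔ x ∈ F} = {e | x ∈ Lv N e r n d} := by
      ext e
      exact iff_true_right hx
    rw [h1]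
    exact meas_lv N r n d x
  · have h1 : {e : ℕ → ℕ → L | x ∈ Lv N e r n d ↔ x ∈ F} = {e | x ∈ Lv N e r n d}ᶜ := by
      ext e
      exact iff_false_right hx
    rw [h1]
    exact (meas_lv N r n d x).compl

/-- the measurable form of similarity -/
def Ms (p : (ℕ → ℕ → L) × (ℕ → ℕ → L)) : Prop :=
  (∀ i, (Srt p.1 (r i)).Infinite ↔ (Srt p.2 (r i)).Infinite) ∧
    ∀ n, ∃ (F G : Finset ℕ) (g : F ≃ G), (Lv N p.1 r n n = F ∧ Lv N p.2 r n n = G) ∧
      ∀ x y : F, ∃ i, p.2 (g x) (g y) = r i ∧ p.1 x y = r i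

lemma meas_Ms : MeasurableSet {p : (ℕ → ℕ → L) × (ℕ → ℕ → L) | Ms N r p} := by
  refine MeasurableSet.inter ?_ ?_
  · have h : {p : (ℕ → ℕ → L) × (ℕ → ℕ → L) |
        ∀ i, (Srt p.1 (r i)).Infinite ↔ (Srt p.2 (r i)).Infinite} = ⋂ i : ℕ,
        {p | (Srt p.1 (r i)).Infinite ↔ (Srt p.2 (r i)).Infinite} := by
      ext p
      rw [mem_iInter]
      rfl
    refine (congrArg MeasurableSet h).mpr (MeasurableSet.iInter fun i => ?_)
    have h1 : MeasurableSet {p : (ℕ → ℕ → L) × (ℕ → ℕ → L) | (Srt p.1 (r i)).Infinite} :=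
      measurable_fst (meas_inf (r i))
    have h2 : MeasurableSet {p : (ℕ → ℕ → L) × (ℕ → ℕ → L) | (Srt p.2 (r i)).Infinite} :=
      measurable_snd (meas_inf (r i))
    exact h1.iff h2
  · have h : {p : (ℕ → ℕ → L) × (ℕ → ℕ → L) | ∀ n, ∃ (F G : Finset ℕ) (g : F ≃ G),
        (Lv N p.1 r n n = F ∧ Lv N p.2 r n n = G) ∧
        ∀ x y : F, ∃ i, p.2 (g x) (g y) = r i ∧ p.1 x y = r i} =
        ⋂ n : ℕ, ⋃ F : Finset ℕ, ⋃ G : Finset ℕ, ⋃ g : F ≃ G,
          ({p | Lv N p.1 r n n = F} ∩ {p | Lv N p.2 r n n = G}) ∩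
          ⋂ x : F, ⋂ y : F, ⋃ i : ℕ, {p | p.2 (g x) (g y) = r i} ∩ {p | p.1 x y = r i} := by
      ext p
      simp only [mem_setOf_eq, mem_iInter, mem_iUnion, mem_inter_iff]
    refine (congrArg MeasurableSet h).mpr ?_
    refine MeasurableSet.iInter fun n => MeasurableSet.iUnion fun F =>
      MeasurableSet.iUnion fun G => MeasurableSet.iUnion fun g => ?_
    refine MeasurableSet.inter ?_ (MeasurableSet.iInter fun x => MeasurableSet.iInter fun y =>
      MeasurableSet.iUnion fun i => ?_)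
    · exact (measurable_fst (meas_lv_eq N r n n F)).inter (measurable_snd (meas_lv_eq N r n n G))
    · exact (measurable_snd (meas_eq _ _ (r i))).inter (measurable_fst (meas_eq _ _ (r i)))

end meas

theorem pf_SIM (hSIL : T_SIL) (hMEM : T_MEM) (hRLC : T_RLC) (hLVI : T_LVI) (hLVF : T_LVF) :
    T_SIM := by
  intro L _ _ N hN hP
  by_cases hne : (Rl N).Nonempty
  swap
  · refine ⟨∅, countable_empty, fun d hd => absurd hd (notMem_empty d), fun e he => ?_⟩
    exact absurd ⟨_, rl_of_mem he 0 0⟩ hne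
  obtain ⟨r, hr⟩ := (hRLC L N hN hP).exists_eq_range hne
  have hrr : ∀ e : ℕ → ℕ → L, Mem N e → ∀ x y, ∃ i, e x y = r i := by
    intro e he x y
    have h1 := rl_of_mem he x y
    rw [hr] at h1
    obtain ⟨i, hi⟩ := h1
    exact ⟨i, hi.symm⟩
  have hX := hMEM L N hN
  -- the measurable form
  have key : ∀ e e' : ℕ → ℕ → L, Mem N e → Mem N e' → (Sim N e e' ↔ Ms N r (e, e')) := by
    intro e e' he he'
    have hS : (∀ q, (Srt e q).Infinite ↔ (Srt e' q).Infinite) ↔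
        ∀ i, (Srt e (r i)).Infinite ↔ (Srt e' (r i)).Infinite := by
      refine ⟨fun h i => h (r i), fun h q => ?_⟩
      by_cases hq : ∃ i, q = r i
      · obtain ⟨i, rfl⟩ := hq
        exact h i
      · have h1 : ∀ f : ℕ → ℕ → L, Mem N f → Srt f q = ∅ := by
          intro f hf
          refine eq_empty_of_forall_notMem fun x hx => hq ?_
          obtain ⟨i, hi⟩ := hrr f hf x x
          exact ⟨i, (show f x x = q from hx).symm.trans hi⟩
        rw [h1 e he, h1 e' he']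
    have hV : ∀ f : ℕ → ℕ → L, Mem N f → ∀ n, (Lv N f r n n).Finite := fun f hf n =>
      (hLVF L N hN.toSep ℕ f hf r (hrr f hf)).1 n n
    constructor
    · rintro ⟨h1, h2⟩
      refine ⟨hS.1 h1, fun n => ?_⟩
      obtain ⟨f, hf⟩ := (hLVI L N hN.toSep ℕ ℕ e e' he he' h1 r (hrr e he) (hrr e' he')).1 h2 n
      have a1 : ((hV e he n).toFinset : Set ℕ) = Lv N e r n n := (hV e he n).coe_toFinset
      have a2 : ((hV e' he' n).toFinset : Set ℕ) = Lv N e' r n n := (hV e' he' n).coe_toFinset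
      refine ⟨(hV e he n).toFinset, (hV e' he' n).toFinset,
        ((Equiv.setCongr a1).trans f).trans (Equiv.setCongr a2).symm, ⟨a1.symm, a2.symm⟩, ?_⟩
      intro x y
      obtain ⟨i, hi⟩ := hrr e he x y
      exact ⟨i, (hf _ _).trans hi, hi⟩
    · rintro ⟨h1, h2⟩
      have h1' := hS.2 h1
      refine ⟨h1', (hLVI L N hN.toSep ℕ ℕ e e' he he' h1' r (hrr e he) (hrr e' he')).2 ?_⟩
      intro n
      obtain ⟨F, G, g, ⟨a1, a2⟩, hg⟩ := h2 n
      refine ⟨((Equiv.setCongr a1).trans g).trans (Equiv.setCongr a2).symm, ?_⟩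
      intro x y
      obtain ⟨i, h3, h4⟩ := hg (Equiv.setCongr a1 x) (Equiv.setCongr a1 y)
      exact h3.trans h4.symm
  -- Silver
  have hm : MeasurableSet {p : (ℕ → ℕ → L) × (ℕ → ℕ → L) |
      Mem N p.1 ∧ Mem N p.2 ∧ Sim N p.1 p.2} := by
    have h : {p : (ℕ → ℕ → L) × (ℕ → ℕ → L) | Mem N p.1 ∧ Mem N p.2 ∧ Sim N p.1 p.2} =
        ({p | Mem N p.1} ∩ {p | Mem N p.2}) ∩ {p | Ms N r p} := by
      ext p
      constructor
      · rintro ⟨h1, h2, h3⟩
        exact ⟨⟨h1, h2⟩, (key p.1 p.2 h1 h2).1 h3⟩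
      · rintro ⟨⟨h1, h2⟩, h3⟩
        exact ⟨h1, h2, (key p.1 p.2 h1 h2).2 h3⟩
    rw [h]
    exact ((measurable_fst hX).inter (measurable_snd hX)).inter (meas_Ms N r)
  rcases hSIL (ℕ → ℕ → L) {e | Mem N e} hX (fun e e' => Mem N e ∧ Mem N e' ∧ Sim N e e')
    (fun a ha => ⟨ha, ha, sim_refl a⟩) (fun a _ b _ h => ⟨h.2.1, h.1, h.2.2.symm⟩)
    (fun a _ b _ c _ h h' => ⟨h.1, h'.2.1, h.2.2.trans h'.2.2⟩) hm with
    ⟨D, h1, h2, h3⟩ | ⟨F, h1, h2, h3⟩
  · refine ⟨D, h2, fun d hd => h1 hd, fun e he => ?_⟩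
    obtain ⟨d, hd, h4⟩ := h3 e he
    exact ⟨d, hd, h4.2.2.symm⟩
  · exfalso
    refine hP ⟨F, h1, h2, fun u v huv hI => ?_⟩
    exact h3 u v huv ⟨h2 u, h2 v, hI.sim⟩

end Pool.Agent.H84.CQ
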